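import Mathlib
import Pool.Agent.X170.Esc.Runge
import Pool.Agent.X170.Esc.Poly
import Pool.Agent.X170.Esc.Geo

/-!
# Erdős's conjecture on escape paths in polynomial lemniscates: `S(n) → ∞`
-/

set_option autoImplicit false

namespace Pool.Agent.Results.MP_071f48_an.EscapePathUnbounded

open Polynomial Set Filter Topology MeasureTheory
open scoped ENNReal

/-- the lemniscate region `E_f = {|f| ≤ 1}` -/
def E (f : ℂ[X]) : Set ℂ := {z | ‖f.eval z‖ ≤ 1}

/-- `L(f)`: the infimum of the lengths (one-dimensional Hausdorff measure of the image) of the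
paths in `E_f` from `0` to the unit circle; `⊤` if there are none -/
noncomputable def L (f : ℂ[X]) : ℝ≥0∞ :=
  ⨅ (γ : C(unitInterval, ℂ)) (_ : γ 0 = 0 ∧ ‖γ 1‖ = 1 ∧ ∀ t, γ t ∈ E f), μH[1] (Set.range γ)

/-- monic of degree `n` with all zeros in the closed unit disc -/
def Admissible (n : ℕ) (f : ℂ[X]) : Prop :=
  f.Monic ∧ f.natDegree = n ∧ ∀ z, f.eval z = 0 → ‖z‖ ≤ 1

/-- `S(n) = sup L(f)` over the admissible polynomials of degree `n` -/
noncomputable def S (n : ℕ) : ℝ≥0∞ := ⨆ (f : ℂ[X]) (_ : Admissible n f), L f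

/-- Erdős's conjecture `S(n) → ∞`; moreover the zeros may be taken on the unit circle. -/
theorem result :
    Tendsto S atTop (𝓝 ⊤) ∧
    ∀ M : ℕ, ∀ᶠ n : ℕ in atTop, ∃ f : ℂ[X], f.Monic ∧ f.natDegree = n ∧
      (∀ z, f.eval z = 0 → ‖z‖ = 1) ∧ (M : ℝ≥0∞) < L f := by
  have key : ∀ M : ℕ, ∀ᶠ n : ℕ in atTop, ∃ f : ℂ[X], f.Monic ∧ f.natDegree = n ∧
      (∀ z, f.eval z = 0 → ‖z‖ = 1) ∧ (M : ℝ≥0∞) < L f := by
    intro M
    set K : ℕ := 2 * (M + 1) with hK
    obtain ⟨P, hP⟩ := X170.Esc.runge_pt (X170.Esc.Bar K) (X170.Esc.isCompact_Bar K)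
      (X170.Esc.unbounded_comp K)
    have h1 := X170.Esc.exists_poly (X170.Esc.Bar K) (3 / 4) (by norm_num) (by norm_num)
      (fun z hz => X170.Esc.norm_le_of_mem K hz) P hP
    filter_upwards [h1] with n hn
    obtain ⟨f, hm, hd, hz, hB⟩ := hn
    refine ⟨f, hm, hd, hz, ?_⟩
    have hlt : (M : ℝ≥0∞) < (K : ℝ≥0∞) * ENNReal.ofReal (3 / 5) := by
      rw [← ENNReal.ofReal_natCast K, ← ENNReal.ofReal_natCast M,
        ← ENNReal.ofReal_mul (Nat.cast_nonneg K)]
      rw [ENNReal.ofReal_lt_ofReal_iff (by positivity)]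
      rw [hK]; push_cast
      have : (0 : ℝ) ≤ M := Nat.cast_nonneg M
      linarith
    refine hlt.trans_le (le_iInf₂ fun γ hγ => ?_)
    obtain ⟨hγ0, hγ1, hγE⟩ := hγ
    have hr : Set.range γ = (fun t : ℝ => γ (projIcc 0 1 zero_le_one t)) '' Icc 0 1 := by
      ext z
      constructor
      · rintro ⟨t, rfl⟩
        exact ⟨t, t.2, by simp⟩
      · rintro ⟨t, _, rfl⟩
        exact ⟨_, rfl⟩
    rw [hr]
    apply X170.Esc.length_ge K (fun t : ℝ => γ (projIcc 0 1 zero_le_one t))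
      (γ.continuous.comp continuous_projIcc)
    · simpa using hγ0
    · simpa using hγ1
    · intro t _ ht
      have h2 := hB _ ht
      have h3 : ‖f.eval (γ (projIcc 0 1 zero_le_one t))‖ ≤ 1 := hγE _
      linarith
  refine ⟨ENNReal.tendsto_nhds_top_iff_nat.2 fun M => ?_, key⟩
  filter_upwards [key M] with n hn
  obtain ⟨f, hm, hd, hz, hL⟩ := hn
  exact hL.trans_le (le_iSup₂ (f := fun (f : ℂ[X]) (_ : Admissible n f) => L f) f
    ⟨hm, hd, fun z h => (hz z h).le⟩)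

end Pool.Agent.Results.MP_071f48_an.EscapePathUnbounded
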