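import Mathlib
import Pool.Agent.X170.Esc.Upper

/-!
# Escape paths in polynomial lemniscates: the upper bound `S(n) ≤ 4 n`
-/

set_option autoImplicit false

namespace Pool.Agent.Results.MP_071f48_an.LinearUpperBound

open Polynomial Set Filter Topology MeasureTheory
open scoped ENNReal

/-- the lemniscate region `E_f = {|f| ≤ 1}` -/
def E (f : ℂ[X]) : Set ℂ := {z | ‖f.eval z‖ ≤ 1}

/-- `L(f)`: the infimum of the lengths (one-dimensional Hausdorff measure of the image) of the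
paths in `E_f` from `0` to the unit circle; `⊤` if there are none -/
noncomputable def L (f : ℂ[X]) : ℝ≥0∞ :=
  ⨅ (γ : C(unitInterval, ℂ)) (_ : γ 0 = 0 ∧ ‖γ 1‖ = 1 ∧ ∀ t, γ t ∈ E f), μH[1] (Set.range γ)

/-- monic of degree `n` with all zeros in the closed unit disc -/
def Admissible (n : ℕ) (f : ℂ[X]) : Prop :=
  f.Monic ∧ f.natDegree = n ∧ ∀ z, f.eval z = 0 → ‖z‖ ≤ 1

/-- `S(n) = sup L(f)` over the admissible polynomials of degree `n` -/
noncomputable def S (n : ℕ) : ℝ≥0∞ := ⨆ (f : ℂ[X]) (_ : Admissible n f), L f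

/-- A finite upper bound for the length of the shortest escape path: `S(n) ≤ 4 n`. -/
theorem result (n : ℕ) (hn : 1 ≤ n) : S n ≤ 4 * n := by
  refine iSup₂_le fun f hf => ?_
  obtain ⟨hm, hd, hz⟩ := hf
  refine ENNReal.le_of_forall_pos_le_add fun ε hε _ => ?_
  obtain ⟨γ, h0, h1, hE, hlen⟩ := X170.Esc.exists_short f hm hz (by omega) ((ε : ℝ) / 2)
    (by have : (0 : ℝ) < ε := by exact_mod_cast hε
        linarith)
  have h2 : L f ≤ μH[1] (Set.range γ) := by
    unfold L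
    exact iInf₂_le (f := fun (γ : C(unitInterval, ℂ))
      (_ : γ 0 = 0 ∧ ‖γ 1‖ = 1 ∧ ∀ t, γ t ∈ E f) => μH[1] (Set.range γ)) γ ⟨h0, h1, hE⟩
  refine h2.trans (hlen.trans ?_)
  rw [hd, show 2 * ((ε : ℝ) / 2) = (ε : ℝ) by ring, ENNReal.ofReal_coe_nnreal]

end Pool.Agent.Results.MP_071f48_an.LinearUpperBound
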